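import Mathlib

set_option autoImplicit false
set_option linter.unusedSectionVars false

/-! # Matchings of all but a few elements which few sets separate -/

namespace Pool.Agent.V8H84.BF

open Finset

variable {m n : ℕ}

/-- every set `A` of more than `M` elements contains two elements which are separated by no set of
the system with more than `L` elements in `A` -/
def Insep (S : Fin m → Finset (Fin n)) (L M : ℕ) : Prop :=
  ∀ A : Finset (Fin n), M < A.card → ∃ a ∈ A, ∃ b ∈ A, a ≠ b ∧
    ∀ i : Fin m, L < (S i ∩ A).card → (a ∈ S i ↔ b ∈ S i)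

/-- a matching of all but `M` of the elements of `A` such that every set separates at most `L`
pairs -/
theorem exists_matching (S : Fin m → Finset (Fin n)) (L M : ℕ) (h : Insep S L M) :
    ∀ A : Finset (Fin n), ∃ σ : Fin n → Fin n, (∀ x, σ (σ x) = x) ∧ (∀ x, x ∉ A → σ x = x) ∧
      (A.filter (fun x => σ x = x)).card ≤ M ∧
      ∀ i, (A.filter (fun x => x < σ x ∧ ¬ (x ∈ S i ↔ σ x ∈ S i))).card ≤ L := by
  intro A
  induction A using Finset.strongInduction with
  | H A ih =>
    by_cases hA : M < A.card
    · obtain ⟨a, ha, b, hb, hab, hsep⟩ := h A hA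
      have hssub : (A.erase a).erase b ⊂ A := by
        refine ⟨(erase_subset _ _).trans (erase_subset _ _), fun hcon => ?_⟩
        have := hcon ha
        simp at this
      obtain ⟨σ', h1, h2, h3, h4⟩ := ih _ hssub
      have ha' : σ' a = a := h2 a (by simp)
      have hb' : σ' b = b := h2 b (by simp)
      have hne_a : ∀ x, x ≠ a → σ' x ≠ a := by
        intro x hx hxa
        apply hx
        rw [← h1 x, hxa, ha']
      have hne_b : ∀ x, x ≠ b → σ' x ≠ b := by
        intro x hx hxb
        apply hx
        rw [← h1 x, hxb, hb']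
      let σ : Fin n → Fin n := fun x => if x = a then b else if x = b then a else σ' x
      have σa : σ a = b := by simp [σ]
      have σb : σ b = a := by
        simp only [σ, if_neg hab.symm, if_true]
      have σx : ∀ x, x ≠ a → x ≠ b → σ x = σ' x := by
        intro x hxa hxb
        simp [σ, hxa, hxb]
      have hinv : ∀ x, σ (σ x) = x := by
        intro x
        by_cases hxa : x = a
        · rw [hxa, σa, σb]
        · by_cases hxb : x = b
          · rw [hxb, σb, σa]
          · rw [σx x hxa hxb, σx _ (hne_a x hxa) (hne_b x hxb), h1]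
      have hout : ∀ x, x ∉ A → σ x = x := by
        intro x hx
        have hxa : x ≠ a := fun h => hx (h ▸ ha)
        have hxb : x ≠ b := fun h => hx (h ▸ hb)
        rw [σx x hxa hxb]
        apply h2
        intro hcon
        exact hx (mem_of_mem_erase (mem_of_mem_erase hcon))
      refine ⟨σ, hinv, hout, ?_, ?_⟩
      · refine le_trans (card_le_card ?_) h3
        intro x hx
        rw [mem_filter] at hx ⊢
        have hxa : x ≠ a := by
          rintro rfl
          rw [σa] at hx
          exact hab hx.2.symm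
        have hxb : x ≠ b := by
          rintro rfl
          rw [σb] at hx
          exact hab hx.2
        refine ⟨?_, ?_⟩
        · rw [mem_erase, mem_erase]
          exact ⟨hxb, hxa, hx.1⟩
        · rw [← σx x hxa hxb]
          exact hx.2
      · intro i
        have hσA : ∀ x ∈ A, σ x ∈ A := by
          intro x hx
          by_contra hcon
          have h5 := hout _ hcon
          rw [hinv] at h5
          exact hcon (h5 ▸ hx)
        by_cases hL : L < (S i ∩ A).card
        · refine le_trans (card_le_card ?_) (h4 i)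
          intro x hx
          rw [mem_filter] at hx ⊢
          obtain ⟨hxA, hlt, hcr⟩ := hx
          have hs := hsep i hL
          have hxa : x ≠ a := by
            rintro rfl
            rw [σa] at hcr
            exact hcr hs
          have hxb : x ≠ b := by
            rintro rfl
            rw [σb] at hcr
            exact hcr hs.symm
          refine ⟨?_, ?_⟩
          · rw [mem_erase, mem_erase]
            exact ⟨hxb, hxa, hxA⟩
          · rw [← σx x hxa hxb]
            exact ⟨hlt, hcr⟩
        · refine le_trans ?_ (not_lt.1 hL)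
          refine Finset.card_le_card_of_injOn (fun x => if x ∈ S i then x else σ x) ?_ ?_
          · intro x hx
            have hx' := mem_filter.1 (mem_coe.1 hx)
            obtain ⟨hxA, hlt, hcr⟩ := hx'
            rw [mem_coe]
            show (if x ∈ S i then x else σ x) ∈ S i ∩ A
            by_cases hxS : x ∈ S i
            · rw [if_pos hxS]
              exact mem_inter.2 ⟨hxS, hxA⟩
            · rw [if_neg hxS]
              refine mem_inter.2 ⟨?_, hσA x hxA⟩
              by_contra hcon
              exact hcr ⟨fun h => absurd h hxS, fun h => absurd h hcon⟩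
          · intro x hx y hy hxy
            have hx' := (mem_filter.1 (mem_coe.1 hx)).2.1
            have hy' := (mem_filter.1 (mem_coe.1 hy)).2.1
            simp only at hxy
            by_cases hxS : x ∈ S i
            · by_cases hyS : y ∈ S i
              · rw [if_pos hxS, if_pos hyS] at hxy
                exact hxy
              · rw [if_pos hxS, if_neg hyS] at hxy
                rw [hxy, hinv] at hx'
                exact absurd hx' (not_lt.2 hy'.le)
            · by_cases hyS : y ∈ S i
              · rw [if_neg hxS, if_pos hyS] at hxy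
                rw [← hxy, hinv] at hy'
                exact absurd hx' (not_lt.2 hy'.le)
              · rw [if_neg hxS, if_neg hyS] at hxy
                rw [← hinv x, hxy, hinv]
    · refine ⟨id, fun _ => rfl, fun _ _ => rfl, ?_, fun i => ?_⟩
      · exact le_trans (card_le_card (filter_subset _ _)) (not_lt.1 hA)
      · have : A.filter (fun x => x < id x ∧ ¬ (x ∈ S i ↔ id x ∈ S i)) = ∅ := by
          rw [filter_eq_empty_iff]
          intro x _ hx
          exact absurd hx.1 (lt_irrefl _)
        rw [this]
        simp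

/-- colourings of the pairs of the matching and of the other elements give colourings of the
system -/
theorem colouring_of_matching (S : Fin m → Finset (Fin n)) (t L M : ℕ)
    (ht : ∀ j, (univ.filter (fun i => j ∈ S i)).card ≤ t) (h : Insep S L M) (Bd Bf : ℝ)
    (hF : ∀ F : Finset (Fin n), F.card ≤ M → ∃ ψ : Fin n → ℤ, (∀ j, ψ j = 1 ∨ ψ j = -1) ∧
      ∀ i, ((|∑ j ∈ (S i).filter (fun j => j ∈ F), ψ j| : ℤ) : ℝ) ≤ Bf)
    (hB : ∀ S' : Fin (m + m) → Finset (Fin n),
      (∀ j, (univ.filter (fun i => j ∈ S' i)).card ≤ 2 * t) → (∀ i, (S' i).card ≤ L) →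
      ∃ ε : Fin n → ℤ, (∀ j, ε j = 1 ∨ ε j = -1) ∧ ∀ i, ((|∑ j ∈ S' i, ε j| : ℤ) : ℝ) ≤ Bd) :
    ∃ χ : Fin n → ℤ, (∀ j, χ j = 1 ∨ χ j = -1) ∧
      ∀ i, ((|∑ j ∈ S i, χ j| : ℤ) : ℝ) ≤ 2 * Bd + Bf := by
  obtain ⟨σ, h1, -, h3, h4⟩ := exists_matching S L M h univ
  let P : Fin m → Finset (Fin n) := fun i =>
    univ.filter (fun x => x < σ x ∧ x ∈ S i ∧ σ x ∉ S i)
  let N : Fin m → Finset (Fin n) := fun i =>
    univ.filter (fun x => x < σ x ∧ x ∉ S i ∧ σ x ∈ S i)
  have hPN : ∀ i, P i ⊆ univ.filter (fun x => x < σ x ∧ ¬ (x ∈ S i ↔ σ x ∈ S i)) := by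
    intro i x hx
    rw [mem_filter] at hx ⊢
    exact ⟨mem_univ _, hx.2.1, fun h => hx.2.2.2 (h.1 hx.2.2.1)⟩
  have hNP : ∀ i, N i ⊆ univ.filter (fun x => x < σ x ∧ ¬ (x ∈ S i ↔ σ x ∈ S i)) := by
    intro i x hx
    rw [mem_filter] at hx ⊢
    exact ⟨mem_univ _, hx.2.1, fun h => hx.2.2.1 (h.2 hx.2.2.2)⟩
  obtain ⟨ψ, hψ, hψB⟩ := hF (univ.filter (fun x => σ x = x)) h3
  obtain ⟨ε, hε, hεB⟩ := hB (Fin.append P N) (by
    intro j
    have e1 : (univ.filter (fun k : Fin (m + m) => j ∈ Fin.append P N k)).card =
        (univ.filter (fun i : Fin m => j ∈ P i)).card +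
          (univ.filter (fun i : Fin m => j ∈ N i)).card := by
      rw [Finset.card_filter, Fin.sum_univ_add, Finset.card_filter, Finset.card_filter]
      congr 1
      · exact Finset.sum_congr rfl fun i _ => by rw [Fin.append_left]
      · exact Finset.sum_congr rfl fun i _ => by rw [Fin.append_right]
    rw [e1]
    have e2 : (univ.filter (fun i : Fin m => j ∈ P i)).card ≤ t := by
      refine le_trans (card_le_card ?_) (ht j)
      intro i hi
      rw [mem_filter] at hi ⊢
      exact ⟨mem_univ _, (mem_filter.1 hi.2).2.2.1⟩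
    have e3 : (univ.filter (fun i : Fin m => j ∈ N i)).card ≤ t := by
      refine le_trans (card_le_card ?_) (ht (σ j))
      intro i hi
      rw [mem_filter] at hi ⊢
      exact ⟨mem_univ _, (mem_filter.1 hi.2).2.2.2⟩
    omega) (by
    intro k
    refine Fin.addCases (fun i => ?_) (fun i => ?_) k
    · rw [Fin.append_left]
      exact (card_le_card (hPN i)).trans (h4 i)
    · rw [Fin.append_right]
      exact (card_le_card (hNP i)).trans (h4 i))
  let χ : Fin n → ℤ := fun x => if x < σ x then ε x else if σ x < x then - ε (σ x) else ψ x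
  refine ⟨χ, fun x => ?_, fun i => ?_⟩
  · simp only [χ]
    split_ifs
    · exact hε x
    · rcases hε (σ x) with h | h <;> rw [h] <;> simp
    · exact hψ x
  · have s1 : ∑ j ∈ S i, χ j = ∑ x ∈ (S i).filter (fun x => x < σ x), ε x -
        ∑ x ∈ (S i).filter (fun x => σ x < x), ε (σ x) +
        ∑ x ∈ (S i).filter (fun x => x ∈ univ.filter (fun x => σ x = x)), ψ x := by
      have e1 : ∀ x, χ x = (if x < σ x then ε x else 0) - (if σ x < x then ε (σ x) else 0) +
          (if x ∈ univ.filter (fun x => σ x = x) then ψ x else 0) := by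
        intro x
        simp only [χ, mem_filter, mem_univ, true_and]
        rcases lt_trichotomy x (σ x) with hx | hx | hx
        · rw [if_pos hx, if_pos hx, if_neg (not_lt.2 hx.le), if_neg hx.ne']
          ring
        · have e2 : ¬ x < σ x := by rw [← hx]; exact lt_irrefl _
          have e3 : ¬ σ x < x := by rw [← hx]; exact lt_irrefl _
          rw [if_neg e2, if_neg e3, if_neg e2, if_neg e3, if_pos hx.symm]
          ring
        · rw [if_neg (not_lt.2 hx.le), if_pos hx, if_neg (not_lt.2 hx.le), if_pos hx,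
            if_neg hx.ne]
          ring
      rw [Finset.sum_congr rfl (fun x _ => e1 x), Finset.sum_add_distrib, Finset.sum_sub_distrib,
        ← Finset.sum_filter, ← Finset.sum_filter, ← Finset.sum_filter]
    have s2 : ∑ x ∈ (S i).filter (fun x => σ x < x), ε (σ x) =
        ∑ x ∈ univ.filter (fun x => x < σ x ∧ σ x ∈ S i), ε x := by
      refine Finset.sum_nbij' σ σ ?_ ?_ ?_ ?_ ?_
      · intro x hx
        have hx' := mem_filter.1 hx
        rw [mem_filter, h1]
        exact ⟨mem_univ _, hx'.2, hx'.1⟩
      · intro x hx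
        have hx' := (mem_filter.1 hx).2
        rw [mem_filter, h1]
        exact ⟨hx'.2, hx'.1⟩
      · intro x _
        exact h1 x
      · intro x _
        exact h1 x
      · intro x _
        rfl
    have s3 : ∑ x ∈ (S i).filter (fun x => x < σ x), ε x -
        ∑ x ∈ univ.filter (fun x => x < σ x ∧ σ x ∈ S i), ε x =
        ∑ x ∈ P i, ε x - ∑ x ∈ N i, ε x := by
      have e1 : ∑ x ∈ (S i).filter (fun x => x < σ x), ε x =
          ∑ x ∈ P i, ε x + ∑ x ∈ univ.filter (fun x => x < σ x ∧ x ∈ S i ∧ σ x ∈ S i), ε x := by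
        rw [← Finset.sum_union]
        · congr 1
          ext x
          simp only [P, mem_filter, mem_union, mem_univ, true_and]
          tauto
        · rw [disjoint_left]
          intro x hx hx'
          exact (mem_filter.1 hx).2.2.2 (mem_filter.1 hx').2.2.2
      have e2 : ∑ x ∈ univ.filter (fun x => x < σ x ∧ σ x ∈ S i), ε x =
          ∑ x ∈ N i, ε x + ∑ x ∈ univ.filter (fun x => x < σ x ∧ x ∈ S i ∧ σ x ∈ S i), ε x := by
        rw [← Finset.sum_union]
        · congr 1
          ext x
          simp only [N, mem_filter, mem_union, mem_univ, true_and]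
          tauto
        · rw [disjoint_left]
          intro x hx hx'
          exact (mem_filter.1 hx).2.2.1 (mem_filter.1 hx').2.2.1
      rw [e1, e2]
      ring
    have b1 := hεB (Fin.castAdd m i)
    have b2 := hεB (Fin.natAdd m i)
    rw [Fin.append_left] at b1
    rw [Fin.append_right] at b2
    have b3 := hψB i
    rw [s1, s2, s3]
    push_cast at b1 b2 b3 ⊢
    set p : ℝ := ∑ x ∈ P i, (ε x : ℝ)
    set q : ℝ := ∑ x ∈ N i, (ε x : ℝ)
    set w : ℝ := ∑ x ∈ (S i).filter (fun x => x ∈ univ.filter (fun x => σ x = x)), (ψ x : ℝ)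
    rw [abs_le] at b1 b2 b3 ⊢
    constructor <;> linarith [b1.1, b1.2, b2.1, b2.2, b3.1, b3.2]

/-- a set system in which the long sets have few cells -/
theorem insep_of_cells (S : Fin m → Finset (Fin n)) (t q φ s L : ℕ) (hsL : s ≤ L)
    (hφL : 4 * φ * t ≤ L)
    (ht : ∀ j, (univ.filter (fun i => j ∈ S i)).card ≤ t)
    (hφ : ∀ R : Finset (Fin m), (∀ i ∈ R, s < (S i).card) → (((univ : Finset (Fin n)).image
      (fun j => R.filter (fun i => j ∈ S i))).erase ∅).card ≤ q + φ * R.card) :
    Insep S L (2 * q + 1) := by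
  intro A hA
  set R : Finset (Fin m) := univ.filter (fun i => L < (S i ∩ A).card) with hR
  have hRs : ∀ i ∈ R, s < (S i).card := by
    intro i hi
    rw [hR, mem_filter] at hi
    exact lt_of_le_of_lt hsL (lt_of_lt_of_le hi.2 (card_le_card inter_subset_left))
  have hsum : ∑ i ∈ R, (S i ∩ A).card ≤ t * A.card := by
    have e1 : ∀ i, (S i ∩ A).card = ∑ j ∈ A, if j ∈ S i then 1 else 0 := by
      intro i
      rw [Finset.sum_boole, Finset.inter_comm, Finset.filter_mem_eq_inter]
      simp
    simp only [e1]
    rw [Finset.sum_comm]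
    calc ∑ j ∈ A, ∑ i ∈ R, (if j ∈ S i then 1 else 0) ≤ ∑ j ∈ A, t := by
          refine Finset.sum_le_sum fun j _ => ?_
          rw [Finset.sum_boole]
          simp only [Nat.cast_id]
          exact (card_le_card (filter_subset_filter _ (subset_univ R))).trans (ht j)
      _ = t * A.card := by rw [sum_const, smul_eq_mul, mul_comm]
  have hlow : R.card * (L + 1) ≤ ∑ i ∈ R, (S i ∩ A).card := by
    rw [← smul_eq_mul, ← Finset.sum_const]
    refine Finset.sum_le_sum fun i hi => ?_
    rw [hR, mem_filter] at hi
    exact hi.2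
  have hlt : q + φ * R.card + 1 < A.card := by
    by_contra hcon
    have h1 : A.card ≤ 2 * (φ * R.card) := by omega
    have h2 : R.card * (L + 1) ≤ t * A.card := hlow.trans hsum
    have h3 : R.card * (4 * φ * t + 1) ≤ R.card * (L + 1) :=
      Nat.mul_le_mul_left _ (by omega)
    have h4 : t * A.card ≤ t * (2 * (φ * R.card)) := Nat.mul_le_mul_left _ h1
    have h5 : R.card = 0 := by nlinarith
    rw [h5] at h1
    omega
  have hcard : (A.image (fun j => R.filter (fun i => j ∈ S i))).card < A.card := by
    refine lt_of_le_of_lt ?_ hlt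
    have h1 := hφ R hRs
    have h2 : A.image (fun j => R.filter (fun i => j ∈ S i)) ⊆
        insert ∅ (((univ : Finset (Fin n)).image (fun j => R.filter (fun i => j ∈ S i))).erase ∅) := by
      intro T hT
      rw [mem_insert, mem_erase]
      by_cases hT0 : T = ∅
      · exact Or.inl hT0
      · right
        refine ⟨hT0, ?_⟩
        rw [mem_image] at hT ⊢
        obtain ⟨j, -, hj⟩ := hT
        exact ⟨j, mem_univ _, hj⟩
    have h3 := card_le_card h2
    have h4 := card_insert_le (∅ : Finset (Fin m)) (((univ : Finset (Fin n)).image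
      (fun j => R.filter (fun i => j ∈ S i))).erase ∅)
    omega
  obtain ⟨a, ha, b, hb, hab, hf⟩ := Finset.exists_ne_map_eq_of_card_lt_of_maps_to hcard
    (fun j hj => mem_coe.2 (mem_image_of_mem (fun j => R.filter (fun i => j ∈ S i)) (mem_coe.1 hj)))
  refine ⟨a, ha, b, hb, hab, fun i hi => ?_⟩
  have hiR : i ∈ R := by
    rw [hR, mem_filter]
    exact ⟨mem_univ _, hi⟩
  have h5 : i ∈ R.filter (fun i => a ∈ S i) ↔ i ∈ R.filter (fun i => b ∈ S i) := by
    have : R.filter (fun i => a ∈ S i) = R.filter (fun i => b ∈ S i) := hf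
    rw [this]
  constructor
  · intro h
    exact (mem_filter.1 (h5.1 (mem_filter.2 ⟨hiR, h⟩))).2
  · intro h
    exact (mem_filter.1 (h5.2 (mem_filter.2 ⟨hiR, h⟩))).2

/-- transport of a colouring of `Fin F.card` to the subset `F` -/
theorem colour_subset (S : Fin m → Finset (Fin n)) (t : ℕ)
    (ht : ∀ j, (univ.filter (fun i => j ∈ S i)).card ≤ t) (F : Finset (Fin n)) (B : ℝ)
    (hB : ∀ S' : Fin m → Finset (Fin F.card),
      (∀ j, (univ.filter (fun i => j ∈ S' i)).card ≤ t) →
      ∃ ε : Fin F.card → ℤ, (∀ j, ε j = 1 ∨ ε j = -1) ∧ ∀ i, ((|∑ j ∈ S' i, ε j| : ℤ) : ℝ) ≤ B) :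
    ∃ ψ : Fin n → ℤ, (∀ j, ψ j = 1 ∨ ψ j = -1) ∧
      ∀ i, ((|∑ j ∈ (S i).filter (fun j => j ∈ F), ψ j| : ℤ) : ℝ) ≤ B := by
  classical
  let e : Fin F.card ≃ F := F.equivFin.symm
  obtain ⟨ε, h1, h2⟩ := hB (fun i => univ.filter (fun k => (e k : Fin n) ∈ S i)) (by
    intro k
    refine le_trans (card_le_card ?_) (ht (e k : Fin n))
    intro i hi
    rw [mem_filter] at hi ⊢
    exact ⟨mem_univ _, (mem_filter.1 hi.2).2⟩)
  refine ⟨fun j => if hj : j ∈ F then ε (e.symm ⟨j, hj⟩) else 1, fun j => ?_, fun i => ?_⟩
  · by_cases hj : j ∈ F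
    · simp only [dif_pos hj]
      exact h1 _
    · simp only [dif_neg hj]
      exact Or.inl trivial
  · have key : ∑ j ∈ (S i).filter (fun j => j ∈ F),
        (if hj : j ∈ F then ε (e.symm ⟨j, hj⟩) else 1) =
        ∑ k ∈ univ.filter (fun k => (e k : Fin n) ∈ S i), ε k := by
      symm
      refine Finset.sum_bij (fun k _ => (e k : Fin n)) ?_ ?_ ?_ ?_
      · intro k hk
        rw [mem_filter] at hk ⊢
        exact ⟨hk.2, (e k).2⟩
      · intro k _ l _ hkl
        exact e.injective (Subtype.ext hkl)
      · intro j hj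
        rw [mem_filter] at hj
        refine ⟨e.symm ⟨j, hj.2⟩, ?_, ?_⟩
        · rw [mem_filter, Equiv.apply_symm_apply]
          exact ⟨mem_univ _, hj.1⟩
        · rw [Equiv.apply_symm_apply]
      · intro k _
        rw [dif_pos (e k).2]
        congr 1
        symm
        exact e.symm_apply_apply k
    rw [key]
    exact h2 i

end Pool.Agent.V8H84.BF
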