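import Mathlib

set_option autoImplicit false
set_option linter.unusedSectionVars false

/-! # Set systems whose long sets have sparse intersections -/

namespace Pool.Agent.V8H84.BF

open Finset

variable {m n : ℕ}

/-- the number of pairs in `H` inside `R` -/
theorem sum_deg_le (H : Finset (Fin m × Fin m)) (R : Finset (Fin m)) :
    ∑ i ∈ R, (R.filter (fun j => (i, j) ∈ H ∨ (j, i) ∈ H)).card ≤
      2 * (H.filter (fun p => p.1 ∈ R ∧ p.2 ∈ R)).card := by
  have h1 : ∑ i ∈ R, (R.filter (fun j => (i, j) ∈ H)).card =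
      (H.filter (fun p => p.1 ∈ R ∧ p.2 ∈ R)).card := by
    have e1 : (H.filter (fun p => p.1 ∈ R ∧ p.2 ∈ R)).card =
        ∑ i ∈ R, ((H.filter (fun p => p.1 ∈ R ∧ p.2 ∈ R)).filter (fun p => p.1 = i)).card :=
      Finset.card_eq_sum_card_fiberwise (fun p hp => (mem_filter.1 hp).2.1)
    rw [e1]
    refine Finset.sum_congr rfl fun i hi => ?_
    refine Finset.card_bij (fun j _ => (i, j)) ?_ ?_ ?_
    · intro j hj
      rw [mem_filter] at hj
      rw [mem_filter, mem_filter]
      exact ⟨⟨hj.2, hi, hj.1⟩, rfl⟩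
    · intro j _ k _ h
      exact (Prod.mk.inj h).2
    · intro p hp
      rw [mem_filter, mem_filter] at hp
      refine ⟨p.2, ?_, ?_⟩
      · rw [mem_filter]
        refine ⟨hp.1.2.2, ?_⟩
        rw [← hp.2]
        exact hp.1.1
      · rw [← hp.2]
  have h2 : ∑ i ∈ R, (R.filter (fun j => (j, i) ∈ H)).card =
      (H.filter (fun p => p.1 ∈ R ∧ p.2 ∈ R)).card := by
    have e1 : (H.filter (fun p => p.1 ∈ R ∧ p.2 ∈ R)).card =
        ∑ i ∈ R, ((H.filter (fun p => p.1 ∈ R ∧ p.2 ∈ R)).filter (fun p => p.2 = i)).card :=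
      Finset.card_eq_sum_card_fiberwise (fun p hp => (mem_filter.1 hp).2.2)
    rw [e1]
    refine Finset.sum_congr rfl fun i hi => ?_
    refine Finset.card_bij (fun j _ => (j, i)) ?_ ?_ ?_
    · intro j hj
      rw [mem_filter] at hj
      rw [mem_filter, mem_filter]
      exact ⟨⟨hj.2, hj.1, hi⟩, rfl⟩
    · intro j _ k _ h
      exact (Prod.mk.inj h).1
    · intro p hp
      rw [mem_filter, mem_filter] at hp
      refine ⟨p.1, ?_, ?_⟩
      · rw [mem_filter]
        refine ⟨hp.1.2.1, ?_⟩
        rw [← hp.2]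
        exact hp.1.1
      · rw [← hp.2]
  calc ∑ i ∈ R, (R.filter (fun j => (i, j) ∈ H ∨ (j, i) ∈ H)).card
      ≤ ∑ i ∈ R, ((R.filter (fun j => (i, j) ∈ H)).card +
          (R.filter (fun j => (j, i) ∈ H)).card) := by
        refine Finset.sum_le_sum fun i _ => ?_
        rw [filter_or]
        exact card_union_le _ _
    _ = 2 * (H.filter (fun p => p.1 ∈ R ∧ p.2 ∈ R)).card := by
        rw [sum_add_distrib, h1, h2]
        ring

/-- a graph whose subgraphs have average degree at most `2 d` has at most `4 ^ d * |R|` nonempty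
cliques -/
theorem card_cliques_le (H : Finset (Fin m × Fin m)) (d : ℕ) :
    ∀ R : Finset (Fin m), (∀ R' ⊆ R, (H.filter (fun p => p.1 ∈ R' ∧ p.2 ∈ R')).card ≤ d * R'.card) →
      (R.powerset.filter (fun T => T.Nonempty ∧ ∀ i ∈ T, ∀ j ∈ T, i < j → (i, j) ∈ H)).card ≤
        4 ^ d * R.card := by
  intro R
  induction R using Finset.strongInduction with
  | H R ih =>
    intro hR
    by_cases hne : R.Nonempty
    · obtain ⟨i, hi, hdeg⟩ : ∃ i ∈ R, (R.filter (fun j => (i, j) ∈ H ∨ (j, i) ∈ H)).card ≤ 2 * d := by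
        by_contra hcon
        push Not at hcon
        have h1 := sum_deg_le H R
        have h2 := hR R (Subset.refl _)
        have h3 : ∑ i ∈ R, 2 * d < ∑ i ∈ R, (R.filter (fun j => (i, j) ∈ H ∨ (j, i) ∈ H)).card :=
          Finset.sum_lt_sum_of_nonempty hne hcon
        rw [sum_const, smul_eq_mul] at h3
        nlinarith
      have hss : R.erase i ⊂ R := erase_ssubset hi
      have h1 := ih _ hss (fun R' hR' => hR R' (hR'.trans (erase_subset _ _)))
      set P : Finset (Fin m) → Prop :=
        fun T => T.Nonempty ∧ ∀ i ∈ T, ∀ j ∈ T, i < j → (i, j) ∈ H with hP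
      have h2 : R.powerset.filter P ⊆ (R.erase i).powerset.filter P ∪
          (R.powerset.filter P).filter (fun T => i ∈ T) := by
        intro T hT
        rw [mem_union]
        by_cases hiT : i ∈ T
        · right
          rw [mem_filter]
          exact ⟨hT, hiT⟩
        · left
          rw [mem_filter, mem_powerset] at hT ⊢
          exact ⟨subset_erase.2 ⟨hT.1, hiT⟩, hT.2⟩
      have h3 : ((R.powerset.filter P).filter (fun T => i ∈ T)).card ≤
          (R.filter (fun j => (i, j) ∈ H ∨ (j, i) ∈ H)).powerset.card := by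
        refine Finset.card_le_card_of_injOn (fun T => T.erase i) ?_ ?_
        · intro T hT
          rw [mem_coe, mem_filter, mem_filter, mem_powerset] at hT
          rw [mem_coe, mem_powerset]
          intro j hj
          rw [mem_erase] at hj
          rw [mem_filter]
          refine ⟨hT.1.1 hj.2, ?_⟩
          rcases lt_or_gt_of_ne hj.1 with h | h
          · exact Or.inr (hT.1.2.2 j hj.2 i hT.2 h)
          · exact Or.inl (hT.1.2.2 i hT.2 j hj.2 h)
        · intro T hT T' hT' h
          rw [mem_coe, mem_filter] at hT hT'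
          simp only at h
          rw [← insert_erase hT.2, h, insert_erase hT'.2]
      have h4 : (R.filter (fun j => (i, j) ∈ H ∨ (j, i) ∈ H)).powerset.card ≤ 4 ^ d := by
        rw [card_powerset]
        calc 2 ^ (R.filter (fun j => (i, j) ∈ H ∨ (j, i) ∈ H)).card ≤ 2 ^ (2 * d) :=
              Nat.pow_le_pow_right (by norm_num) hdeg
          _ = 4 ^ d := by rw [pow_mul]; norm_num
      have h5 : R.card = (R.erase i).card + 1 := by
        rw [card_erase_of_mem hi]
        have := card_pos.2 hne
        omega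
      calc (R.powerset.filter P).card
          ≤ ((R.erase i).powerset.filter P).card +
            ((R.powerset.filter P).filter (fun T => i ∈ T)).card :=
            (card_le_card h2).trans (card_union_le _ _)
        _ ≤ 4 ^ d * (R.erase i).card + 4 ^ d := add_le_add h1 (h3.trans h4)
        _ = 4 ^ d * R.card := by rw [h5]; ring
    · rw [not_nonempty_iff_eq_empty] at hne
      subst hne
      rw [card_empty, mul_zero, Nat.le_zero, card_eq_zero, filter_eq_empty_iff]
      intro T hT h
      rw [powerset_empty, mem_singleton] at hT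
      rw [hT] at h
      exact absurd h.1 (by simp)

/-- for every collection `R` of sets of the system with more than `s` elements, there are at most
`d * |R|` pairs of sets in `R` whose intersections have distinct representatives -/
def SparseLong (S : Fin m → Finset (Fin n)) (s d : ℕ) : Prop :=
  ∀ R : Finset (Fin m), (∀ i ∈ R, s < (S i).card) →
    ∀ H : Finset (Fin m × Fin m), (∀ p ∈ H, p.1 ∈ R ∧ p.2 ∈ R ∧ p.1 < p.2) →
      ∀ a : Fin m × Fin m → Fin n, (∀ p ∈ H, a p ∈ S p.1 ∩ S p.2) → Set.InjOn a H →
        H.card ≤ d * R.card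

/-- the long sets of a system with sparse intersections of long sets have few cells -/
theorem cells_of_sparse (S : Fin m → Finset (Fin n)) (s d : ℕ) (hS : SparseLong S s d)
    (R : Finset (Fin m)) (hR : ∀ i ∈ R, s < (S i).card) :
    (((univ : Finset (Fin n)).image (fun j => R.filter (fun i => j ∈ S i))).erase ∅).card ≤
      (d + 4 ^ d) * R.card := by
  classical
  rcases (univ : Finset (Fin n)).eq_empty_or_nonempty with hn | ⟨j₀, -⟩
  · rw [hn]
    simp
  let good : Finset (Fin m × Fin m) → Prop := fun H =>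
    (∀ p ∈ H, p.1 ∈ R ∧ p.2 ∈ R ∧ p.1 < p.2) ∧
      ∃ a : Fin m × Fin m → Fin n, (∀ p ∈ H, a p ∈ S p.1 ∩ S p.2) ∧ Set.InjOn a H
  have hne : ((univ : Finset (Finset (Fin m × Fin m))).filter good).Nonempty := by
    refine ⟨∅, ?_⟩
    rw [mem_filter]
    refine ⟨mem_univ _, fun p hp => absurd hp (by simp), fun _ => j₀,
      fun p hp => absurd hp (by simp), ?_⟩
    simp
  obtain ⟨H, hH, hmax⟩ := Finset.exists_max_image _ (fun H => H.card) hne
  rw [mem_filter] at hH
  obtain ⟨-, hH1, a, hH2, hH3⟩ := hH
  have hsub : ∀ R' ⊆ R, (H.filter (fun p => p.1 ∈ R' ∧ p.2 ∈ R')).card ≤ d * R'.card := by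
    intro R' hR'
    refine hS R' (fun i hi => hR i (hR' hi)) _ (fun p hp => ?_) a (fun p hp => ?_)
      (hH3.mono ?_)
    · rw [mem_filter] at hp
      exact ⟨hp.2.1, hp.2.2, (hH1 p hp.1).2.2⟩
    · rw [mem_filter] at hp
      exact hH2 p hp.1
    · intro p hp
      rw [mem_coe, mem_filter] at hp
      exact hp.1
  have hHd : H.card ≤ d * R.card := hS R hR H hH1 a hH2 hH3
  have hclq : ∀ j, j ∉ H.image a → ∀ i ∈ R.filter (fun i => j ∈ S i),
      ∀ k ∈ R.filter (fun i => j ∈ S i), i < k → (i, k) ∈ H := by
    intro j hj i hi k hk hik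
    by_contra hcon
    rw [mem_filter] at hi hk
    have hg : insert (i, k) H ∈ (univ : Finset (Finset (Fin m × Fin m))).filter good := by
      rw [mem_filter]
      refine ⟨mem_univ _, ?_, Function.update a (i, k) j, ?_, ?_⟩
      · intro p hp
        rw [mem_insert] at hp
        rcases hp with rfl | hp
        · exact ⟨hi.1, hk.1, hik⟩
        · exact hH1 p hp
      · intro p hp
        rw [mem_insert] at hp
        rcases hp with rfl | hp
        · rw [Function.update_self, mem_inter]
          exact ⟨hi.2, hk.2⟩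
        · have : p ≠ (i, k) := fun h => hcon (h ▸ hp)
          rw [Function.update_of_ne this]
          exact hH2 p hp
      · intro p hp q hq hpq
        rw [mem_coe, mem_insert] at hp hq
        rcases hp with hp | hp
        · rcases hq with hq | hq
          · rw [hp, hq]
          · exfalso
            have h1 : q ≠ (i, k) := fun h => hcon (h ▸ hq)
            rw [hp, Function.update_self, Function.update_of_ne h1] at hpq
            exact hj (mem_image.2 ⟨q, hq, hpq.symm⟩)
        · have h1 : p ≠ (i, k) := fun h => hcon (h ▸ hp)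
          rcases hq with hq | hq
          · exfalso
            rw [hq, Function.update_self, Function.update_of_ne h1] at hpq
            exact hj (mem_image.2 ⟨p, hp, hpq⟩)
          · have h2 : q ≠ (i, k) := fun h => hcon (h ▸ hq)
            rw [Function.update_of_ne h1, Function.update_of_ne h2] at hpq
            exact hH3 hp hq hpq
    have h1 := hmax _ hg
    rw [card_insert_of_notMem hcon] at h1
    omega
  have hcover : ((univ : Finset (Fin n)).image (fun j => R.filter (fun i => j ∈ S i))).erase ∅ ⊆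
      (H.image a).image (fun j => R.filter (fun i => j ∈ S i)) ∪
      R.powerset.filter (fun T => T.Nonempty ∧ ∀ i ∈ T, ∀ j ∈ T, i < j → (i, j) ∈ H) := by
    intro T hT
    rw [mem_erase, mem_image] at hT
    obtain ⟨hT0, j, -, rfl⟩ := hT
    rw [mem_union]
    by_cases hj : j ∈ H.image a
    · left
      exact mem_image.2 ⟨j, hj, rfl⟩
    · right
      rw [mem_filter, mem_powerset]
      exact ⟨filter_subset _ _, nonempty_iff_ne_empty.2 hT0, hclq j hj⟩
  calc _ ≤ _ := card_le_card hcover
    _ ≤ ((H.image a).image (fun j => R.filter (fun i => j ∈ S i))).card +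
        (R.powerset.filter (fun T => T.Nonempty ∧
          ∀ i ∈ T, ∀ j ∈ T, i < j → (i, j) ∈ H)).card := card_union_le _ _
    _ ≤ H.card + 4 ^ d * R.card :=
        add_le_add (card_image_le.trans card_image_le) (card_cliques_le H d R hsub)
    _ ≤ (d + 4 ^ d) * R.card := by
        rw [add_mul]
        omega

/-- a set system in which few long sets have few cells -/
theorem insep_of_long_cells (S : Fin m → Finset (Fin n)) (t φ s L : ℕ) (hsL : s ≤ L)
    (hφL : 2 * φ * t ≤ L)
    (ht : ∀ j, (univ.filter (fun i => j ∈ S i)).card ≤ t)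
    (hφ : ∀ R : Finset (Fin m), (∀ i ∈ R, s < (S i).card) → (((univ : Finset (Fin n)).image
      (fun j => R.filter (fun i => j ∈ S i))).erase ∅).card ≤ φ * R.card) :
    ∀ A : Finset (Fin n), 2 ≤ A.card → ∃ a ∈ A, ∃ b ∈ A, a ≠ b ∧
      ∀ i : Fin m, L < (S i ∩ A).card → (a ∈ S i ↔ b ∈ S i) := by
  intro A hA
  set R : Finset (Fin m) := univ.filter (fun i => L < (S i ∩ A).card) with hR
  have hRs : ∀ i ∈ R, s < (S i).card := by
    intro i hi
    rw [hR, mem_filter] at hi
    exact lt_of_le_of_lt hsL (lt_of_lt_of_le hi.2 (card_le_card inter_subset_left))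
  have hsum : ∑ i ∈ R, (S i ∩ A).card ≤ t * A.card := by
    have e1 : ∀ i, (S i ∩ A).card = ∑ j ∈ A, if j ∈ S i then 1 else 0 := by
      intro i
      rw [Finset.sum_boole, Finset.inter_comm, Finset.filter_mem_eq_inter]
      simp
    simp only [e1]
    rw [Finset.sum_comm]
    calc ∑ j ∈ A, ∑ i ∈ R, (if j ∈ S i then 1 else 0) ≤ ∑ j ∈ A, t := by
          refine Finset.sum_le_sum fun j _ => ?_
          rw [Finset.sum_boole]
          simp only [Nat.cast_id]
          exact (card_le_card (filter_subset_filter _ (subset_univ R))).trans (ht j)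
      _ = t * A.card := by rw [sum_const, smul_eq_mul, mul_comm]
  have hlow : R.card * (L + 1) ≤ ∑ i ∈ R, (S i ∩ A).card := by
    rw [← smul_eq_mul, ← Finset.sum_const]
    refine Finset.sum_le_sum fun i hi => ?_
    rw [hR, mem_filter] at hi
    exact hi.2
  have hlt : φ * R.card + 1 < A.card := by
    by_contra hcon
    have h1 : A.card ≤ 2 * (φ * R.card) := by omega
    have h2 : R.card * (L + 1) ≤ t * A.card := hlow.trans hsum
    have h3 : R.card * (2 * φ * t + 1) ≤ R.card * (L + 1) :=
      Nat.mul_le_mul_left _ (by omega)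
    have h4 : t * A.card ≤ t * (2 * (φ * R.card)) := Nat.mul_le_mul_left _ h1
    have h5 : R.card = 0 := by nlinarith
    rw [h5] at h1
    omega
  have hcard : (A.image (fun j => R.filter (fun i => j ∈ S i))).card < A.card := by
    refine lt_of_le_of_lt ?_ hlt
    have h1 := hφ R hRs
    have h2 : A.image (fun j => R.filter (fun i => j ∈ S i)) ⊆
        insert ∅ (((univ : Finset (Fin n)).image (fun j => R.filter (fun i => j ∈ S i))).erase ∅) := by
      intro T hT
      rw [mem_insert, mem_erase]
      by_cases hT0 : T = ∅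
      · exact Or.inl hT0
      · right
        refine ⟨hT0, ?_⟩
        rw [mem_image] at hT ⊢
        obtain ⟨j, -, hj⟩ := hT
        exact ⟨j, mem_univ _, hj⟩
    have h3 := card_le_card h2
    have h4 := card_insert_le (∅ : Finset (Fin m)) (((univ : Finset (Fin n)).image
      (fun j => R.filter (fun i => j ∈ S i))).erase ∅)
    omega
  obtain ⟨a, ha, b, hb, hab, hf⟩ := Finset.exists_ne_map_eq_of_card_lt_of_maps_to hcard
    (fun j hj => mem_coe.2 (mem_image_of_mem (fun j => R.filter (fun i => j ∈ S i)) (mem_coe.1 hj)))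
  refine ⟨a, ha, b, hb, hab, fun i hi => ?_⟩
  have hiR : i ∈ R := by
    rw [hR, mem_filter]
    exact ⟨mem_univ _, hi⟩
  have h5 : i ∈ R.filter (fun i => a ∈ S i) ↔ i ∈ R.filter (fun i => b ∈ S i) := by
    have : R.filter (fun i => a ∈ S i) = R.filter (fun i => b ∈ S i) := hf
    rw [this]
  constructor
  · intro h
    exact (mem_filter.1 (h5.1 (mem_filter.2 ⟨hiR, h⟩))).2
  · intro h
    exact (mem_filter.1 (h5.2 (mem_filter.2 ⟨hiR, h⟩))).2

/-- bounded intersection degrees of the long sets -/
theorem sparse_of_meet (S : Fin m → Finset (Fin n)) (s d : ℕ)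
    (h : ∀ i, s < (S i).card → (univ.filter (fun k => k ≠ i ∧ s < (S k).card ∧
      (S i ∩ S k).Nonempty)).card ≤ 2 * d) : SparseLong S s d := by
  intro R hR H hH a ha _
  have h1 : ∑ i ∈ R, (H.filter (fun p => p.1 = i)).card = H.card :=
    (Finset.card_eq_sum_card_fiberwise (fun p hp => (hH p hp).1)).symm
  have h2 : ∑ i ∈ R, (H.filter (fun p => p.2 = i)).card = H.card :=
    (Finset.card_eq_sum_card_fiberwise (fun p hp => (hH p hp).2.1)).symm
  have h3 : ∀ i ∈ R, (H.filter (fun p => p.1 = i)).card + (H.filter (fun p => p.2 = i)).card ≤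
      2 * d := by
    intro i hi
    refine le_trans ?_ (h i (hR i hi))
    have e1 : (H.filter (fun p => p.1 = i)).card =
        ((H.filter (fun p => p.1 = i)).image (fun p => p.2)).card := by
      rw [card_image_of_injOn]
      intro p hp q hq hpq
      rw [mem_coe, mem_filter] at hp hq
      exact Prod.ext (hp.2.trans hq.2.symm) hpq
    have e2 : (H.filter (fun p => p.2 = i)).card =
        ((H.filter (fun p => p.2 = i)).image (fun p => p.1)).card := by
      rw [card_image_of_injOn]
      intro p hp q hq hpq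
      rw [mem_coe, mem_filter] at hp hq
      exact Prod.ext hpq (hp.2.trans hq.2.symm)
    rw [e1, e2, ← card_union_of_disjoint]
    · refine card_le_card ?_
      intro k hk
      rw [mem_union, mem_image, mem_image] at hk
      rw [mem_filter]
      rcases hk with ⟨p, hp, rfl⟩ | ⟨p, hp, rfl⟩
      · rw [mem_filter] at hp
        obtain ⟨hp1, rfl⟩ := hp
        obtain ⟨q1, q2, q3⟩ := hH p hp1
        exact ⟨mem_univ _, q3.ne', hR _ q2, ⟨a p, ha p hp1⟩⟩
      · rw [mem_filter] at hp
        obtain ⟨hp1, rfl⟩ := hp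
        obtain ⟨q1, q2, q3⟩ := hH p hp1
        refine ⟨mem_univ _, q3.ne, hR _ q1, ⟨a p, ?_⟩⟩
        rw [inter_comm]
        exact ha p hp1
    · rw [disjoint_left]
      intro k hk hk'
      rw [mem_image] at hk hk'
      obtain ⟨p, hp, rfl⟩ := hk
      obtain ⟨q, hq, hqk⟩ := hk'
      rw [mem_filter] at hp hq
      have l1 := (hH p hp.1).2.2
      have l2 := (hH q hq.1).2.2
      rw [hp.2] at l1
      rw [hq.2, hqk] at l2
      exact absurd l1 (not_lt.2 l2.le)
  have h4 := Finset.sum_le_sum h3
  rw [sum_add_distrib, h1, h2, sum_const, smul_eq_mul] at h4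
  nlinarith

end Pool.Agent.V8H84.BF
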